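import Pool.Agent.Helper70.SK.Stmts
import Pool.Agent.Helper70.SK.Lib

/-! (PARB) conditional independence of the two points of the partner space given their common function. -/

namespace Pool.Agent.Helper70.SK

open Finset Pool.Agent.Helper70.DK

section
open Classical

/-- number of elements with a property -/
noncomputable def parbC {Ω : Type} (S : Finset Ω) (P : Ω → Prop) : ℕ := (S.filter P).card

theorem parbC_congr {Ω : Type} (S : Finset Ω) (P Q : Ω → Prop) (h : ∀ ω ∈ S, P ω ↔ Q ω) :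
    parbC S P = parbC S Q := by
  unfold parbC
  rw [Finset.filter_congr h]

theorem parb_mem_fib {Ω β : Type} (S : Finset Ω) (g : Ω → β) (c : β) (ω : Ω) :
    ω ∈ fib S g c ↔ ω ∈ S ∧ g ω = c := by
  unfold fib
  exact Finset.mem_filter

theorem parb_fib_le {Ω β : Type} (S : Finset Ω) (g : Ω → β) (c : β) : (fib S g c).card ≤ S.card := by
  unfold fib
  exact Finset.card_filter_le _ _

/-- number of indices whose partner satisfies `Q` -/
theorem parb_inner {ζ V : Type} (Z : Finset ζ) (N : ℕ) (f : ζ → V) (pa : ζ → ℕ → ζ)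
    (hpa : ∀ z ∈ Z, ∀ w ∈ Z, f w = f z →
      parbC (range N) (fun j => pa z j = w) * (fib Z f (f z)).card = N)
    (hmem : ∀ z ∈ Z, ∀ j, pa z j ∈ Z ∧ f (pa z j) = f z) (Q : ζ → Prop) (z : ζ) (hz : z ∈ Z) :
    parbC (range N) (fun j => Q (pa z j)) * (fib Z f (f z)).card =
      N * parbC (fib Z f (f z)) Q := by
  have h1 : ((range N).filter (fun j => Q (pa z j))).card =
      ∑ w ∈ (fib Z f (f z)).filter Q, ((range N).filter (fun j => pa z j = w)).card := by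
    rw [Finset.card_eq_sum_card_fiberwise (f := fun j => pa z j) (t := (fib Z f (f z)).filter Q)]
    · refine Finset.sum_congr rfl fun w hw => ?_
      refine congrArg Finset.card ?_
      rw [Finset.filter_filter]
      refine Finset.filter_congr fun j _ => ?_
      constructor
      · exact fun h => h.2
      · intro h
        refine ⟨?_, h⟩
        rw [h]
        exact (Finset.mem_filter.1 hw).2
    · intro j hj
      have hj' := (Finset.mem_filter.1 (Finset.mem_coe.1 hj)).2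
      refine Finset.mem_coe.2 (Finset.mem_filter.2 ⟨?_, hj'⟩)
      exact (parb_mem_fib _ _ _ _).2 (hmem z hz j)
  unfold parbC
  rw [h1, Finset.sum_mul]
  rw [Finset.sum_congr rfl (g := fun _ => N)]
  · rw [Finset.sum_const, smul_eq_mul, mul_comm]
  · intro w hw
    have hw' := (parb_mem_fib _ _ _ _).1 (Finset.mem_filter.1 hw).1
    exact hpa z hz w hw'.1 hw'.2

/-- the general count -/
theorem parb_count {ζ υ V : Type} (Z : Finset ζ) (N : ℕ) (U : Finset υ) (f : ζ → V) (pa : ζ → ℕ → ζ)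
    (hpa : ∀ z ∈ Z, ∀ w ∈ Z, f w = f z →
      parbC (range N) (fun j => pa z j = w) * (fib Z f (f z)).card = N)
    (hmem : ∀ z ∈ Z, ∀ j, pa z j ∈ Z ∧ f (pa z j) = f z) (P Q : ζ → Prop) (v : V) (u0 : υ) (hu : u0 ∈ U) :
    parbC ((Z ×ˢ range N) ×ˢ U)
      (fun ω => P ω.1.1 ∧ Q (pa ω.1.1 ω.1.2) ∧ f ω.1.1 = v ∧ ω.2 = u0) * (fib Z f v).card =
      N * parbC (fib Z f v) P * parbC (fib Z f v) Q := by
  have e2 : ((Z ×ˢ range N).filter (fun p => P p.1 ∧ Q (pa p.1 p.2) ∧ f p.1 = v)).card =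
      ∑ z ∈ (fib Z f v).filter P, ((range N).filter (fun j => Q (pa z j))).card := by
    rw [Finset.card_eq_sum_card_fiberwise (f := fun p => p.1) (t := (fib Z f v).filter P)]
    · refine Finset.sum_congr rfl fun z hz => ?_
      have hz1 := (Finset.mem_filter.1 hz)
      have hz3 := (parb_mem_fib _ _ _ _).1 hz1.1
      have : (((Z ×ˢ range N).filter (fun p => P p.1 ∧ Q (pa p.1 p.2) ∧ f p.1 = v)).filter
          (fun p => p.1 = z)) = ((range N).filter (fun j => Q (pa z j))).map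
          ⟨fun j => (z, j), fun a b h => (Prod.ext_iff.1 h).2⟩ := by
        ext ⟨z', j⟩
        simp only [Finset.mem_filter, Finset.mem_product, Finset.mem_map, Function.Embedding.coeFn_mk,
          Prod.mk.injEq]
        constructor
        · rintro ⟨⟨⟨h1, h2⟩, h3, h4, h5⟩, h6⟩
          subst h6
          exact ⟨j, ⟨h2, h4⟩, rfl, rfl⟩
        · rintro ⟨j', ⟨h2, h4⟩, h5, h6⟩
          subst h5
          subst h6
          exact ⟨⟨⟨hz3.1, h2⟩, hz1.2, h4, hz3.2⟩, rfl⟩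
      rw [this, Finset.card_map]
    · intro p hp
      have hp' := Finset.mem_filter.1 (Finset.mem_coe.1 hp)
      refine Finset.mem_coe.2 (Finset.mem_filter.2 ⟨?_, hp'.2.1⟩)
      exact (parb_mem_fib _ _ _ _).2 ⟨(Finset.mem_product.1 hp'.1).1, hp'.2.2.2⟩
  have e3 : parbC ((Z ×ˢ range N) ×ˢ U)
      (fun ω => P ω.1.1 ∧ Q (pa ω.1.1 ω.1.2) ∧ f ω.1.1 = v ∧ ω.2 = u0) =
      ∑ z ∈ (fib Z f v).filter P, parbC (range N) (fun j => Q (pa z j)) := by
    unfold parbC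
    refine Eq.trans (congrArg Finset.card (?_ : _ = ((Z ×ˢ range N).filter
      (fun p => P p.1 ∧ Q (pa p.1 p.2) ∧ f p.1 = v)) ×ˢ ({u0} : Finset υ))) ?_
    · ext ⟨⟨z, j⟩, u⟩
      simp only [Finset.mem_filter, Finset.mem_product, Finset.mem_singleton]
      constructor
      · rintro ⟨⟨h1, h2⟩, h3, h4, h5, h6⟩
        exact ⟨⟨h1, h3, h4, h5⟩, h6⟩
      · rintro ⟨⟨h1, h3, h4, h5⟩, h6⟩
        exact ⟨⟨h1, h6 ▸ hu⟩, h3, h4, h5, h6⟩
    · rw [Finset.card_product, Finset.card_singleton, mul_one, e2]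
  rw [e3, Finset.sum_mul]
  rw [Finset.sum_congr rfl (g := fun _ => N * parbC (fib Z f v) Q)]
  · rw [Finset.sum_const, smul_eq_mul]
    unfold parbC
    ring
  · intro z hz
    have hz3 := (parb_mem_fib _ _ _ _).1 (Finset.mem_filter.1 hz).1
    have := parb_inner Z N f pa hpa hmem Q z hz3.1
    rw [hz3.2] at this
    exact this

/-- entropy as an average of logarithms; the identity from the pointwise identity of the counts -/
theorem parb_ent {Ω α β γ δ : Type} (S : Finset Ω) (f1 : Ω → α) (f2 : Ω → β) (f3 : Ω → γ) (f4 : Ω → δ)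
    (h : ∀ ω ∈ S, parbC S (fun ω' => f1 ω' = f1 ω) * parbC S (fun ω' => f2 ω' = f2 ω) =
      parbC S (fun ω' => f3 ω' = f3 ω) * parbC S (fun ω' => f4 ω' = f4 ω)) :
    ent S f1 + ent S f2 = ent S f3 + ent S f4 := by
  unfold ent
  rw [← add_div, ← add_div, ← Finset.sum_add_distrib, ← Finset.sum_add_distrib]
  congr 1
  refine Finset.sum_congr rfl fun ω hω => ?_
  have hpos : ∀ (τ : Type) (g : Ω → τ), (0 : ℝ) < ((S.filter (fun ω' => g ω' = g ω)).card : ℝ) := by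
    intro τ g
    have : 0 < (S.filter (fun ω' => g ω' = g ω)).card :=
      Finset.card_pos.2 ⟨ω, Finset.mem_filter.2 ⟨hω, rfl⟩⟩
    exact Nat.cast_pos.2 this
  have h' : (((S.filter (fun ω' => f1 ω' = f1 ω)).card : ℕ) : ℝ) *
      ((S.filter (fun ω' => f2 ω' = f2 ω)).card : ℝ) =
      ((S.filter (fun ω' => f3 ω' = f3 ω)).card : ℝ) * ((S.filter (fun ω' => f4 ω' = f4 ω)).card : ℝ) := by
    have := h ω hω
    unfold parbC at this
    rw [← Nat.cast_mul, ← Nat.cast_mul, this]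
  have hl := congrArg Real.log h'
  rw [Real.log_mul (hpos _ f1).ne' (hpos _ f2).ne', Real.log_mul (hpos _ f3).ne' (hpos _ f4).ne'] at hl
  linarith

/-- the abstract form of the statement -/
theorem parb_gen {ζ υ V α β : Type} (Z : Finset ζ) (N : ℕ) (U : Finset υ) (f : ζ → V) (pa : ζ → ℕ → ζ)
    (hpa : ∀ z ∈ Z, ∀ w ∈ Z, f w = f z →
      parbC (range N) (fun j => pa z j = w) * (fib Z f (f z)).card = N)
    (hmem : ∀ z ∈ Z, ∀ j, pa z j ∈ Z ∧ f (pa z j) = f z) (F : ζ × υ → α) (F' : ζ × υ → β) :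
    ent ((Z ×ˢ range N) ×ˢ U) (fun ω => (F (ω.1.1, ω.2), F' (pa ω.1.1 ω.1.2, ω.2), f ω.1.1, ω.2)) +
      ent ((Z ×ˢ range N) ×ˢ U) (fun ω => (f ω.1.1, ω.2)) =
    ent ((Z ×ˢ range N) ×ˢ U) (fun ω => (F (ω.1.1, ω.2), f ω.1.1, ω.2)) +
      ent ((Z ×ˢ range N) ×ˢ U) (fun ω => (F' (pa ω.1.1 ω.1.2, ω.2), f ω.1.1, ω.2)) := by
  refine parb_ent _ _ _ _ _ ?_
  rintro ⟨⟨z0, j0⟩, u0⟩ hω
  have hω1 := Finset.mem_product.1 hω
  have hz0 : z0 ∈ Z := (Finset.mem_product.1 hω1.1).1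
  have hu0 : u0 ∈ U := hω1.2
  have cnt := fun P Q => parb_count Z N U f pa hpa hmem P Q (f z0) u0 hu0
  have hn : 0 < (fib Z f (f z0)).card :=
    Finset.card_pos.2 ⟨z0, (parb_mem_fib _ _ _ _).2 ⟨hz0, rfl⟩⟩
  have ctrue : parbC (fib Z f (f z0)) (fun _ => True) = (fib Z f (f z0)).card := by
    unfold parbC
    refine congrArg Finset.card ?_
    ext x
    simp only [Finset.mem_filter, and_true]
  have c4 := cnt (fun z => F (z, u0) = F (z0, u0)) (fun w => F' (w, u0) = F' (pa z0 j0, u0))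
  have c2 := cnt (fun _ => True) (fun _ => True)
  have cF := cnt (fun z => F (z, u0) = F (z0, u0)) (fun _ => True)
  have cG := cnt (fun _ => True) (fun w => F' (w, u0) = F' (pa z0 j0, u0))
  rw [ctrue] at c2 cF cG
  have g4 : parbC ((Z ×ˢ range N) ×ˢ U) (fun ω' =>
      (F (ω'.1.1, ω'.2), F' (pa ω'.1.1 ω'.1.2, ω'.2), f ω'.1.1, ω'.2) =
        (F (z0, u0), F' (pa z0 j0, u0), f z0, u0)) =
      parbC ((Z ×ˢ range N) ×ˢ U) (fun ω => F (ω.1.1, u0) = F (z0, u0) ∧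
        F' (pa ω.1.1 ω.1.2, u0) = F' (pa z0 j0, u0) ∧ f ω.1.1 = f z0 ∧ ω.2 = u0) := by
    refine parbC_congr _ _ _ ?_
    rintro ⟨⟨z, j⟩, u⟩ _
    simp only [Prod.mk.injEq]
    constructor
    · rintro ⟨h1, h2, h3, h4⟩
      subst h4
      exact ⟨h1, h2, h3, rfl⟩
    · rintro ⟨h1, h2, h3, h4⟩
      subst h4
      exact ⟨h1, h2, h3, rfl⟩
  have g2 : parbC ((Z ×ˢ range N) ×ˢ U) (fun ω' => (f ω'.1.1, ω'.2) = (f z0, u0)) =
      parbC ((Z ×ˢ range N) ×ˢ U) (fun ω => True ∧ True ∧ f ω.1.1 = f z0 ∧ ω.2 = u0) := by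
    refine parbC_congr _ _ _ ?_
    rintro ⟨⟨z, j⟩, u⟩ _
    simp only [Prod.mk.injEq, true_and]
  have gF : parbC ((Z ×ˢ range N) ×ˢ U) (fun ω' =>
      (F (ω'.1.1, ω'.2), f ω'.1.1, ω'.2) = (F (z0, u0), f z0, u0)) =
      parbC ((Z ×ˢ range N) ×ˢ U) (fun ω => F (ω.1.1, u0) = F (z0, u0) ∧
        True ∧ f ω.1.1 = f z0 ∧ ω.2 = u0) := by
    refine parbC_congr _ _ _ ?_
    rintro ⟨⟨z, j⟩, u⟩ _
    simp only [Prod.mk.injEq, true_and]
    constructor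
    · rintro ⟨h1, h3, h4⟩
      subst h4
      exact ⟨h1, h3, rfl⟩
    · rintro ⟨h1, h3, h4⟩
      subst h4
      exact ⟨h1, h3, rfl⟩
  have gG : parbC ((Z ×ˢ range N) ×ˢ U) (fun ω' =>
      (F' (pa ω'.1.1 ω'.1.2, ω'.2), f ω'.1.1, ω'.2) = (F' (pa z0 j0, u0), f z0, u0)) =
      parbC ((Z ×ˢ range N) ×ˢ U) (fun ω => True ∧
        F' (pa ω.1.1 ω.1.2, u0) = F' (pa z0 j0, u0) ∧ f ω.1.1 = f z0 ∧ ω.2 = u0) := by
    refine parbC_congr _ _ _ ?_
    rintro ⟨⟨z, j⟩, u⟩ _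
    simp only [Prod.mk.injEq, true_and]
    constructor
    · rintro ⟨h2, h3, h4⟩
      subst h4
      exact ⟨h2, h3, rfl⟩
    · rintro ⟨h2, h3, h4⟩
      subst h4
      exact ⟨h2, h3, rfl⟩
  show parbC ((Z ×ˢ range N) ×ˢ U) (fun ω' =>
      (F (ω'.1.1, ω'.2), F' (pa ω'.1.1 ω'.1.2, ω'.2), f ω'.1.1, ω'.2) =
        (F (z0, u0), F' (pa z0 j0, u0), f z0, u0)) *
      parbC ((Z ×ˢ range N) ×ˢ U) (fun ω' => (f ω'.1.1, ω'.2) = (f z0, u0)) =
      parbC ((Z ×ˢ range N) ×ˢ U) (fun ω' =>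
      (F (ω'.1.1, ω'.2), f ω'.1.1, ω'.2) = (F (z0, u0), f z0, u0)) *
      parbC ((Z ×ˢ range N) ×ˢ U) (fun ω' =>
      (F' (pa ω'.1.1 ω'.1.2, ω'.2), f ω'.1.1, ω'.2) = (F' (pa z0 j0, u0), f z0, u0))
  rw [g4, g2, gF, gG]
  refine Nat.eq_of_mul_eq_mul_right (Nat.mul_pos hn hn) ?_
  calc _ = (parbC ((Z ×ˢ range N) ×ˢ U) (fun ω => F (ω.1.1, u0) = F (z0, u0) ∧
        F' (pa ω.1.1 ω.1.2, u0) = F' (pa z0 j0, u0) ∧ f ω.1.1 = f z0 ∧ ω.2 = u0) *
          (fib Z f (f z0)).card) *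
        (parbC ((Z ×ˢ range N) ×ˢ U) (fun ω => True ∧ True ∧ f ω.1.1 = f z0 ∧ ω.2 = u0) *
          (fib Z f (f z0)).card) := by ring
    _ = (parbC ((Z ×ˢ range N) ×ˢ U) (fun ω => F (ω.1.1, u0) = F (z0, u0) ∧
        True ∧ f ω.1.1 = f z0 ∧ ω.2 = u0) * (fib Z f (f z0)).card) *
        (parbC ((Z ×ˢ range N) ×ˢ U) (fun ω => True ∧
        F' (pa ω.1.1 ω.1.2, u0) = F' (pa z0 j0, u0) ∧ f ω.1.1 = f z0 ∧ ω.2 = u0) *
          (fib Z f (f z0)).card) := by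
        rw [c4, c2, cF, cG]
        ring
    _ = _ := by ring

end

theorem st_PARB (hPK : ST_PK) : ST_PARB := by
  intro m q B k K σ α β F F'
  have hf : ∀ z ∈ σ.GX B, z ∈ fib (σ.GX B) (σ.ff B k K) (σ.ff B k K z) := by
    intro z hz
    exact (parb_mem_fib _ _ _ _).2 ⟨hz, rfl⟩
  have hcard : ∀ z ∈ σ.GX B, (fib (σ.GX B) (σ.ff B k K) (σ.ff B k K z)).card ∣ σ.N0 B := by
    intro z hz
    unfold Sy.N0
    exact Nat.dvd_factorial (Finset.card_pos.2 ⟨z, hf z hz⟩) (parb_fib_le _ _ _)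
  have hpk := fun z (hz : z ∈ σ.GX B) =>
    hPK _ (fib (σ.GX B) (σ.ff B k K) (σ.ff B k K z)) (σ.N0 B) z ⟨z, hf z hz⟩ (hcard z hz)
  have hmem : ∀ z ∈ σ.GX B, ∀ j, σ.pa B k K z j ∈ σ.GX B ∧ σ.ff B k K (σ.pa B k K z j) = σ.ff B k K z := by
    intro z hz j
    exact (parb_mem_fib _ _ _ _).1 ((hpk z hz).1 j)
  have hpa : ∀ z ∈ σ.GX B, ∀ w ∈ σ.GX B, σ.ff B k K w = σ.ff B k K z →
      parbC (range (σ.N0 B)) (fun j => σ.pa B k K z j = w) *
        (fib (σ.GX B) (σ.ff B k K) (σ.ff B k K z)).card = σ.N0 B := by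
    intro z hz w hw hwz
    exact (hpk z hz).2 w ((parb_mem_fib _ _ _ _).2 ⟨hw, hwz⟩)
  have key := parb_gen (σ.GX B) (σ.N0 B) (σ.U B) (σ.ff B k K) (σ.pa B k K) hpa hmem F F'
  have hx : ∀ ω ∈ σ.Pa B, (ω.1.1.1, σ.x1 B k K ω) = σ.pa B k K ω.1.1 ω.1.2 := by
    intro ω hω
    unfold Sy.Pa at hω
    have h1 := (Finset.mem_product.1 (Finset.mem_product.1 hω).1).1
    have h2 := (hmem ω.1.1 h1 ω.1.2).2
    unfold Sy.ff at h2
    have h3 := (Prod.ext_iff.1 h2).1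
    simp only at h3
    exact Prod.ext h3.symm rfl
  have e1 : ent (σ.Pa B) (fun ω => (F (ω.1.1, ω.2), F' ((ω.1.1.1, σ.x1 B k K ω), ω.2),
      σ.ff B k K ω.1.1, ω.2)) = ent (σ.Pa B) (fun ω => (F (ω.1.1, ω.2),
      F' (σ.pa B k K ω.1.1 ω.1.2, ω.2), σ.ff B k K ω.1.1, ω.2)) := by
    refine ent_congr _ _ _ ?_
    intro x hx' y hy'
    rw [hx x hx', hx y hy']
  have e2 : ent (σ.Pa B) (fun ω => (F' ((ω.1.1.1, σ.x1 B k K ω), ω.2),
      σ.ff B k K ω.1.1, ω.2)) = ent (σ.Pa B) (fun ω => (F' (σ.pa B k K ω.1.1 ω.1.2, ω.2),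
      σ.ff B k K ω.1.1, ω.2)) := by
    refine ent_congr _ _ _ ?_
    intro x hx' y hy'
    rw [hx x hx', hx y hy']
  rw [e1, e2]
  exact key

end Pool.Agent.Helper70.SK
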